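import Pool.Agent.N412.LB.All

/-!
MP_f2e3c0_co, Q1 (full positive answer): for every `k ≥ 4` the lollipops `L_{k,t}` are two-colour
bonbons for all large `t`.
-/

set_option autoImplicit false

namespace Pool.Agent.Results.MP_f2e3c0_co.Bonbon

open Classical in
/-- Number of monochromatic labelled copies of `H` in the red/blue colouring of the edges of the
complete graph on `Fin n` with red graph `G` and blue graph `Gᶜ`: injective maps sending all edges
of `H` to red edges, or all edges of `H` to blue edges. -/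
noncomputable def copies {t n : ℕ} (H : SimpleGraph (Fin t)) (G : SimpleGraph (Fin n)) : ℕ :=
  ((Finset.univ : Finset (Fin t ↪ Fin n)).filter
    (fun f => (∀ u v, H.Adj u v → G.Adj (f u) (f v)) ∨
      (∀ u v, H.Adj u v → Gᶜ.Adj (f u) (f v)))).card

/-- The lollipop `L_{k,t}` (for `k < t`): a clique on the vertices `0, …, k-1` and the path
`k-1, k, …, t-1`. -/
def lollipop (k t : ℕ) : SimpleGraph (Fin t) where
  Adj i j := (i ≠ j ∧ i.val < k ∧ j.val < k) ∨ (i.val + 1 = j.val ∧ k ≤ j.val) ∨
    (j.val + 1 = i.val ∧ k ≤ i.val)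
  symm := ⟨by
    intro i j h
    rcases h with h | h | h
    · exact Or.inl ⟨h.1.symm, h.2.2, h.2.1⟩
    · exact Or.inr (Or.inr h)
    · exact Or.inr (Or.inl h)⟩
  loopless := ⟨by
    intro i h
    rcases h with h | h | h
    · exact h.1 rfl
    · omega
    · omega⟩

/-- `H` is a two-colour bonbon: `H` is connected and, with `χ(H) = r + 1`, for all large `n` the
colourings of `K_n` with the minimum number of monochromatic labelled copies of `H` are exactly
those isomorphic, up to swapping the two colours, to the Turan colouring with `r` parts. Here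
`SimpleGraph.turanGraph n r` is the complete balanced `r`-partite graph, so the Turan colouring
has the complement of this graph as its red graph. -/
def IsBonbon {t : ℕ} (H : SimpleGraph (Fin t)) : Prop :=
  H.Connected ∧ ∃ r : ℕ, H.chromaticNumber = ((r + 1 : ℕ) : ℕ∞) ∧ ∃ N : ℕ, ∀ n : ℕ, N ≤ n →
    ∀ G : SimpleGraph (Fin n), (∀ G' : SimpleGraph (Fin n), copies H G ≤ copies H G') ↔
      (Nonempty (G ≃g SimpleGraph.turanGraph n r) ∨ Nonempty (Gᶜ ≃g SimpleGraph.turanGraph n r))

theorem result : ∀ k : ℕ, 4 ≤ k → ∃ T : ℕ, k < T ∧ ∀ t : ℕ, T ≤ t → IsBonbon (lollipop k t) := by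
  intro k hk
  obtain ⟨T, hT⟩ := Pool.Agent.N412.LB.all k hk
  exact ⟨max T (k + 1), lt_of_lt_of_le (Nat.lt_succ_self k) (le_max_right _ _),
    fun t ht => hT t ((le_max_left _ _).trans ht)⟩

end Pool.Agent.Results.MP_f2e3c0_co.Bonbon
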